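import Mathlib

/-! A set of pairs whose surviving-relation quotient has torsion. -/

set_option autoImplicit false

namespace Pool.Agent.Results.MP_7c4268_al.Torsion

/-- The relations `r(g,h,k)` that survive on `S`, written additively in the free abelian group
with basis `S`. -/
def rels {G : Type} [AddCommGroup G] (S : Set (Sym2 G)) : Set (FreeAbelianGroup S) :=
  {r | ∃ (g h k : G) (h1 : s(g, h) ∈ S) (h2 : s(g + h, k) ∈ S) (h3 : s(h, k) ∈ S)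
    (h4 : s(g, h + k) ∈ S), r = FreeAbelianGroup.of (⟨s(h, k), h3⟩ : S) +
      FreeAbelianGroup.of (⟨s(g, h + k), h4⟩ : S) - FreeAbelianGroup.of (⟨s(g, h), h1⟩ : S) -
        FreeAbelianGroup.of (⟨s(g + h, k), h2⟩ : S)}

def L : List (Sym2 ℤ) := [s(1, 11), s(1, 19), s(1, 23), s(1, 24), s(12, 3), s(12, 12), s(12, 13), s(15, 3), s(15, 9), s(15, 10), s(18, 2), s(18, 6), s(18, 7), s(20, 4), s(20, 5), s(11, 6), s(11, 12), s(11, 13), s(14, 3), s(14, 5), s(14, 9), s(14, 10), s(17, 6), s(17, 7), s(19, 4), s(19, 5), s(3, 5), s(3, 9), s(3, 10), s(6, 2), s(6, 6), s(6, 7), s(8, 4), s(8, 5), s(3, 6), s(3, 7), s(5, 4), s(5, 5), s(2, 4), s(2, 5)]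

def S : Set (Sym2 ℤ) := {p | p ∈ L}

def phi (p : Sym2 ℤ) : ZMod 2 := if p ∈ [s(12, 12), s(15, 9), s(11, 12), s(17, 6), s(3, 6)] then 1 else 0

def V : List ℤ := [1, 2, 3, 4, 5, 6, 7, 8, 9, 10, 11, 12, 13, 14, 15, 17, 18, 19, 20, 23, 24]

theorem mem_V : ∀ p ∈ L, ∀ a ∈ p, a ∈ V := fun p hp a ha =>
  (by decide +kernel : ∀ p ∈ L, ∀ a ∈ p.toFinset, a ∈ V) p hp a (Sym2.mem_toFinset.2 ha)

theorem key : ∀ g ∈ V, ∀ h ∈ V, s(g, h) ∈ L → ∀ k ∈ V, s(h, k) ∈ L → s(g + h, k) ∈ L →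
    s(g, h + k) ∈ L → phi s(h, k) + phi s(g, h + k) - phi s(g, h) - phi s(g + h, k) = 0 := by
  decide +kernel

def E (a b : ℤ) : FreeAbelianGroup S :=
  if h : s(a, b) ∈ L then FreeAbelianGroup.of ⟨s(a, b), h⟩ else 0

theorem rel (g h k a b : ℤ) (ha : a = g + h) (hb : b = h + k)
    (H : s(g, h) ∈ L ∧ s(a, k) ∈ L ∧ s(h, k) ∈ L ∧ s(g, b) ∈ L) :
    E h k + E g b - E g h - E a k ∈ AddSubgroup.closure (rels S) := by
  subst ha hb
  exact AddSubgroup.subset_closure ⟨g, h, k, H.1, H.2.1, H.2.2.1, H.2.2.2, by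
    simp only [E, H, dif_pos]⟩

theorem result : ∃ (G : Type) (_ : AddCommGroup G) (S : Set (Sym2 G)), S.Finite ∧
    ¬Module.Free ℤ (FreeAbelianGroup S ⧸ AddSubgroup.closure (rels S)) := by
  refine ⟨ℤ, inferInstance, S, L.finite_toSet, fun hf => ?_⟩
  let z := E 11 12 - E 11 13 + E 3 9 - E 3 10 - E 14 9 + E 14 10
  have h2 : (2 : ℤ) • z ∈ AddSubgroup.closure (rels S) := by
    have : (2 : ℤ) • z = (E 11 12 + E 1 23 - E 1 11 - E 12 12) - (E 11 13 + E 1 24 - E 1 11 - E 12 13) + (E 3 9 + E 12 12 - E 12 3 - E 15 9) - (E 3 10 + E 12 13 - E 12 3 - E 15 10) + (E 3 6 + E 15 9 - E 15 3 - E 18 6) - (E 3 7 + E 15 10 - E 15 3 - E 18 7) + (E 2 4 + E 18 6 - E 18 2 - E 20 4) - (E 2 5 + E 18 7 - E 18 2 - E 20 5) - (E 19 4 + E 1 23 - E 1 19 - E 20 4) + (E 19 5 + E 1 24 - E 1 19 - E 20 5) + (E 6 6 + E 11 12 - E 11 6 - E 17 6) - (E 6 7 + E 11 13 - E 11 6 - E 17 7) + (E 5 4 + E 3 9 - E 3 5 - E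 8 4) - (E 5 5 + E 3 10 - E 3 5 - E 8 5) - (E 3 6 + E 14 9 - E 14 3 - E 17 6) + (E 3 7 + E 14 10 - E 14 3 - E 17 7) - (E 2 4 + E 6 6 - E 6 2 - E 8 4) + (E 2 5 + E 6 7 - E 6 2 - E 8 5) - (E 5 4 + E 14 9 - E 14 5 - E 19 4) + (E 5 5 + E 14 10 - E 14 5 - E 19 5) := by
      simp only [z]; abel
    rw [this]
    exact add_mem (sub_mem (add_mem (sub_mem (add_mem (sub_mem (sub_mem (add_mem (sub_mem (add_mem (add_mem (sub_mem (sub_mem (add_mem (sub_mem (add_mem (sub_mem (add_mem (sub_mem (rel 1 11 12 _ _ rfl rfl (by decide)) (rel 1 11 13 _ _ rfl rfl (by decide))) (rel 12 3 9 _ _ rfl rfl (by decide))) (rel 12 3 10 _ _ rfl rfl (by decide))) (rel 15 3 6 _ _ rfl rfl (by decide))) (rel 15 3 7 _ _ rfl rfl (by decide))) (rel 18 2 4 _ _ rfl rfl (by decide))) (rel 18 2 5 _ _ rfl rfl (by decide))) (rel 1 19 4 _ _ rfl rfl (by decide))) (rel 1 19 5 _ _ rfl rfl (by decide))) (rel 11 6 6 _ _ rfl rfl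 (by decide))) (rel 11 6 7 _ _ rfl rfl (by decide))) (rel 3 5 4 _ _ rfl rfl (by decide))) (rel 3 5 5 _ _ rfl rfl (by decide))) (rel 14 3 6 _ _ rfl rfl (by decide))) (rel 14 3 7 _ _ rfl rfl (by decide))) (rel 6 2 4 _ _ rfl rfl (by decide))) (rel 6 2 5 _ _ rfl rfl (by decide))) (rel 14 5 4 _ _ rfl rfl (by decide))) (rel 14 5 5 _ _ rfl rfl (by decide))
  have h3 : z ∈ AddSubgroup.closure (rels S) := by
    rw [← QuotientAddGroup.eq_zero_iff] at h2 ⊢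
    rw [QuotientAddGroup.mk_zsmul] at h2
    exact (smul_eq_zero.1 h2).resolve_left two_ne_zero
  let f : FreeAbelianGroup S →+ ZMod 2 := FreeAbelianGroup.lift fun p => phi p.1
  have h4 : AddSubgroup.closure (rels S) ≤ f.ker := by
    rw [AddSubgroup.closure_le]
    rintro _ ⟨g, h, k, h1, h2, h3, h4, rfl⟩
    simpa [f] using key g (mem_V _ h1 g (by simp)) h (mem_V _ h1 h (by simp)) h1 k
      (mem_V _ h3 k (by simp)) h3 h2 h4
  have h5 : ∀ a b, s(a, b) ∈ L → f (E a b) = phi s(a, b) := fun a b h => by simp [f, E, h]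
  have h6 : f z = 0 := h4 h3
  simp only [z, map_add, map_sub] at h6
  rw [h5 _ _ (by decide), h5 _ _ (by decide), h5 _ _ (by decide), h5 _ _ (by decide),
    h5 _ _ (by decide), h5 _ _ (by decide)] at h6
  exact absurd h6 (by decide)

end Pool.Agent.Results.MP_7c4268_al.Torsion
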